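import Pool.Agent.Helper60.FF.StmtsC

set_option autoImplicit false

namespace Pool.Agent.Helper60.FF

open Polynomial

theorem dns_one (hLFX : ST_LFX) (p : ℕ) [Fact p.Prime] (A : Subfield ℂ_[p]) (hA : IsAlgClosed A)
    (x : ℂ_[p]) (δ : ℝ) (hδ : 0 < δ) : ∃ a ∈ A, ‖x - a‖ < δ := by
  obtain ⟨y, hy⟩ := (UniformSpace.Completion.denseRange_coe (α := PadicAlgCl p)).exists_dist_lt x hδ
  set w : ℂ_[p] := ((y : PadicAlgCl p) : ℂ_[p]) with hw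
  have hxw : ‖x - w‖ < δ := by
    rw [← dist_eq_norm]
    exact hy
  have halg : IsAlgebraic ℚ_[p] w := by
    have h1 : IsAlgebraic ℚ_[p] y := Algebra.IsAlgebraic.isAlgebraic y
    exact h1.algebraMap (A := ℂ_[p])
  have hfin : FiniteDimensional ℚ_[p] (IntermediateField.adjoin ℚ_[p] {w}) :=
    IntermediateField.adjoin.finiteDimensional halg.isIntegral
  obtain ⟨a, ha, -, haw⟩ := (hLFX p A hA _ hfin).1 w
    (IntermediateField.mem_adjoin_simple_self _ w) δ hδ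
  refine ⟨a, ha, ?_⟩
  have h2 : x - a = (x - w) + (w - a) := by ring
  rw [h2]
  exact (PadicComplex.isNonarchimedean p _ _).trans_lt (max_lt hxw haw)

theorem st_DNS (hLFX : ST_LFX) : ST_DNS := by
  intro p hp A hA
  refine ⟨dns_one hLFX p A hA, ?_⟩
  intro γ
  obtain ⟨x, hx, hxγ⟩ := res_surj γ
  obtain ⟨a, ha, hxa⟩ := dns_one hLFX p A hA x 1 one_pos
  have hpA : ∀ k : ℕ, ((p : ℕ) : ℂ_[p]) ^ k ∈ A := fun k => pow_mem (natCast_mem A p) k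
  have hpk : ∀ k : ℕ, ‖((p : ℕ) : ℂ_[p]) ^ (k + 1)‖ < 1 := by
    intro k
    rw [norm_pow, norm_p]
    have h1 : (p : ℝ)⁻¹ < 1 := inv_lt_one_of_one_lt₀ (by exact_mod_cast hp.out.one_lt)
    exact pow_lt_one₀ (by positivity) h1 (Nat.succ_ne_zero k)
  refine Set.infinite_of_injective_forall_mem
    (f := fun k : ℕ => (⟨a + ((p : ℕ) : ℂ_[p]) ^ (k + 1), A.add_mem ha (hpA (k + 1))⟩ : A)) ?_ ?_
  · intro k l hkl
    have h1 : a + ((p : ℕ) : ℂ_[p]) ^ (k + 1) = a + ((p : ℕ) : ℂ_[p]) ^ (l + 1) :=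
      congrArg Subtype.val hkl
    have h2 : ((p : ℕ) : ℂ_[p]) ^ (k + 1) = ((p : ℕ) : ℂ_[p]) ^ (l + 1) := add_left_cancel h1
    have h3 : ((p ^ (k + 1) : ℕ) : ℂ_[p]) = ((p ^ (l + 1) : ℕ) : ℂ_[p]) := by
      rw [Nat.cast_pow, Nat.cast_pow]
      exact h2
    have h4 : p ^ (k + 1) = p ^ (l + 1) := Nat.cast_injective h3
    have h5 := Nat.pow_right_injective hp.out.two_le h4
    omega
  · intro k
    have h1 : ‖x - (a + ((p : ℕ) : ℂ_[p]) ^ (k + 1))‖ < 1 := by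
      have h2 : x - (a + ((p : ℕ) : ℂ_[p]) ^ (k + 1)) = (x - a) + -(((p : ℕ) : ℂ_[p]) ^ (k + 1)) := by
        ring
      rw [h2]
      refine (PadicComplex.isNonarchimedean p _ _).trans_lt (max_lt hxa ?_)
      rw [norm_neg]
      exact hpk k
    have h3 : ‖a + ((p : ℕ) : ℂ_[p]) ^ (k + 1)‖ ≤ 1 := by
      have h4 : a + ((p : ℕ) : ℂ_[p]) ^ (k + 1) = x - (x - (a + ((p : ℕ) : ℂ_[p]) ^ (k + 1))) := by
        ring
      rw [h4]
      exact (OO p).sub_mem hx (show (x - (a + ((p : ℕ) : ℂ_[p]) ^ (k + 1))) ∈ OO p from h1.le)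
    show ‖a + ((p : ℕ) : ℂ_[p]) ^ (k + 1)‖ ≤ 1 ∧ res (a + ((p : ℕ) : ℂ_[p]) ^ (k + 1)) = γ
    refine ⟨h3, ?_⟩
    rw [← hxγ, eq_comm, res_eq_iff hx h3]
    exact h1

end Pool.Agent.Helper60.FF
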