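import Pool.Agent.Helper60.FF.StmtsC

set_option autoImplicit false

namespace Pool.Agent.Helper60.FF

open Polynomial

theorem st_OVE : ST_OVE := by
  intro p hp A hA E hE c
  classical
  set S : Set ℂ_[p] := (fun j : ℕ => ((c.num.coeff j : A) : ℂ_[p])) '' (c.num.support : Set ℕ) ∪
    (fun j : ℕ => ((c.denom.coeff j : A) : ℂ_[p])) '' (c.denom.support : Set ℕ) with hS
  have hSfin : S.Finite :=
    ((Finset.finite_toSet _).image _).union ((Finset.finite_toSet _).image _)
  have hSalg : ∀ s ∈ S, IsIntegral ℚ_[p] s := by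
    rintro s (⟨j, -, rfl⟩ | ⟨j, -, rfl⟩)
    · exact (hA _ (c.num.coeff j).2).isIntegral
    · exact (hA _ (c.denom.coeff j).2).isIntegral
  have hfin : FiniteDimensional ℚ_[p] (IntermediateField.adjoin ℚ_[p] S) := by
    have := hSfin.to_subtype
    exact IntermediateField.finiteDimensional_adjoin hSalg
  refine ⟨E ⊔ IntermediateField.adjoin ℚ_[p] S, ?_, le_sup_left, ?_⟩
  · have := hE
    exact IntermediateField.finiteDimensional_sup E _
  · intro E'' hE''
    have hmem : ∀ s ∈ S, s ∈ E'' := fun s hs =>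
      hE'' ((le_sup_right : IntermediateField.adjoin ℚ_[p] S ≤ E ⊔ _)
        (IntermediateField.subset_adjoin ℚ_[p] S hs))
    refine ⟨c.num, c.denom, c.denom_ne_zero, ?_, ?_, ?_⟩
    · intro j
      by_cases hj : c.num.coeff j = 0
      · rw [hj]
        exact E''.zero_mem
      · exact hmem _ (Or.inl ⟨j, by simpa using hj, rfl⟩)
    · intro j
      by_cases hj : c.denom.coeff j = 0
      · rw [hj]
        exact E''.zero_mem
      · exact hmem _ (Or.inr ⟨j, by simpa using hj, rfl⟩)
    · have h1 : algebraMap (Polynomial A) (RatFunc A) c.denom ≠ 0 :=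
        RatFunc.algebraMap_ne_zero c.denom_ne_zero
      have h2 := RatFunc.num_div_denom c
      rw [div_eq_iff h1] at h2
      exact h2.symm

end Pool.Agent.Helper60.FF
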