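import Pool.Agent.Helper60.FF.DefsB
import Pool.Agent.Helper50.BSC.EFIN

set_option autoImplicit false

namespace Pool.Agent.Helper60.FF

open Polynomial

section

variable {p : ℕ} [hp : Fact p.Prime]

theorem rfa_one : IsAlgClosed (RF p) := by
  refine IsAlgClosed.of_exists_root (RF p) ?_
  intro q hq hirr
  have hs : Function.Surjective (IsLocalRing.residue (OO p)) := IsLocalRing.residue_surjective
  have hl : q ∈ lifts (IsLocalRing.residue (OO p)) := by
    rw [lifts_iff_coeff_lifts]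
    intro n
    exact hs _
  obtain ⟨P, hP, hdeg, hmon⟩ := lifts_and_degree_eq_and_monic hl hq
  have hd : (P.map (algebraMap (OO p) ℂ_[p])).degree ≠ 0 := by
    rw [hmon.degree_map, hdeg]
    exact hirr.degree_pos.ne'
  obtain ⟨x, hx⟩ := IsAlgClosed.exists_root _ hd
  have hx' : P.eval₂ (algebraMap (OO p) ℂ_[p]) x = 0 := by
    rw [← eval_map]
    exact hx
  have hint : IsIntegral (OO p) x := ⟨P, hmon, hx'⟩
  obtain ⟨y, hy⟩ := IsIntegrallyClosed.isIntegral_iff.1 hint
  have h0 : P.eval y = 0 := by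
    have h1 : algebraMap (OO p) ℂ_[p] (P.eval y) = 0 := by
      rw [← eval₂_at_apply, hy]
      exact hx'
    exact (map_eq_zero_iff _ (FaithfulSMul.algebraMap_injective (OO p) ℂ_[p])).1 h1
  refine ⟨IsLocalRing.residue (OO p) y, ?_⟩
  rw [← hP, eval_map, eval₂_at_apply, h0, map_zero]

theorem rfa_two (ξ : RF p) : ∃ f : ℕ, 0 < f ∧ ξ ∈ Fq p f := by
  by_cases h0 : ξ = 0
  · refine ⟨1, one_pos, ?_⟩
    rw [h0]
    exact (Fq p 1).zero_mem
  obtain ⟨x, hx, hxξ⟩ := res_surj ξ
  obtain ⟨y, hy⟩ := (UniformSpace.Completion.denseRange_coe (α := PadicAlgCl p)).exists_dist_lt x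
    (zero_lt_one)
  set w : ℂ_[p] := ((y : PadicAlgCl p) : ℂ_[p]) with hw
  have hxw : ‖x - w‖ < 1 := by
    rw [← dist_eq_norm]
    exact hy
  have hw1 : ‖w‖ ≤ 1 := by
    have : w = x - (x - w) := by ring
    rw [this]
    exact (OO p).sub_mem hx (show x - w ∈ OO p from hxw.le)
  have hwξ : res w = ξ := by
    rw [← hxξ, eq_comm, res_eq_iff hx hw1]
    exact hxw
  have hwn : ‖w‖ = 1 := by
    rw [norm_eq_one_iff hw1, hwξ]
    exact h0
  have halg : IsAlgebraic ℚ_[p] w := by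
    have h1 : IsAlgebraic ℚ_[p] y := Algebra.IsAlgebraic.isAlgebraic y
    exact h1.algebraMap (A := ℂ_[p])
  have hfin : FiniteDimensional ℚ_[p] (IntermediateField.adjoin ℚ_[p] {w}) :=
    IntermediateField.adjoin.finiteDimensional halg.isIntegral
  obtain ⟨e, N, he, hN, hE⟩ := Pool.Agent.Helper14.BSC.st_EFIN p _ hfin
  have hw0 : w ≠ 0 := by
    intro h
    rw [h, norm_zero] at hwn
    exact zero_ne_one hwn
  have h2 := (hE w (IntermediateField.mem_adjoin_simple_self _ w) hw0).2 hwn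
  have hwN : ‖w ^ N‖ ≤ 1 := by
    rw [norm_pow, hwn, one_pow]
  have h3 : ξ ^ N = 1 := by
    rw [← hwξ, ← res_pow hw1, ← res_one, res_eq_iff hwN (by rw [norm_one])]
    exact h2
  obtain ⟨a, N', hN', hNN⟩ := Nat.exists_eq_pow_mul_and_not_dvd hN.ne' p hp.out.ne_one
  have : ExpChar (RF p) p := ExpChar.prime hp.out
  rw [hNN, ExpChar.pow_prime_pow_mul_eq_one_iff p a N' ξ] at h3
  have hN'0 : 0 < N' := by
    rcases Nat.eq_zero_or_pos N' with h | h
    · rw [h] at hN'
      exact absurd (dvd_zero p) hN'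
    · exact h
  have hcop : Nat.Coprime p N' := (Nat.Prime.coprime_iff_not_dvd hp.out).2 hN'
  refine ⟨Nat.totient N', Nat.totient_pos.2 hN'0, ?_⟩
  rw [mem_Fq]
  have h4 := Nat.ModEq.pow_totient hcop
  have h5 : 1 ≤ p ^ Nat.totient N' := Nat.one_le_pow _ _ hp.out.pos
  obtain ⟨k, hk⟩ := (Nat.modEq_iff_dvd' h5).1 h4.symm
  have h6 : p ^ Nat.totient N' = N' * k + 1 := by omega
  rw [h6, pow_succ, pow_mul, h3, one_pow, one_mul]

theorem rfa_three {f : ℕ} (hf : 0 < f) : Finite (Fq p f) ∧ Nat.card (Fq p f) = p ^ f := by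
  have := rfa_one (p := p)
  classical
  have hset : ((Fq p f : Subfield (RF p)) : Set (RF p))
      = (X ^ (p ^ f) - X : (RF p)[X]).rootSet (RF p) := by
    ext x
    rw [Polynomial.mem_rootSet]
    have hne : (X ^ (p ^ f) - X : (RF p)[X]) ≠ 0 :=
      FiniteField.X_pow_card_pow_sub_X_ne_zero (RF p) hf.ne' hp.out.one_lt
    constructor
    · intro h
      have h' : x ^ (p ^ f) = x := h
      refine ⟨hne, ?_⟩
      simp [h']
    · rintro ⟨_, h⟩
      have h' : x ^ (p ^ f) = x := by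
        simpa [sub_eq_zero] using h
      exact h'
  have hsep : (X ^ (p ^ f) - X : (RF p)[X]).Separable :=
    galois_poly_separable p (p ^ f) (dvd_pow_self p hf.ne')
  have hc := Polynomial.card_rootSet_eq_natDegree (K := RF p) hsep (IsAlgClosed.splits _)
  rw [FiniteField.X_pow_card_pow_sub_X_natDegree_eq (RF p) hf.ne' hp.out.one_lt] at hc
  have e : (Fq p f) ≃ ((X ^ (p ^ f) - X : (RF p)[X]).rootSet (RF p)) := Equiv.setCongr hset
  refine ⟨Finite.of_equiv _ e.symm, ?_⟩
  rw [Nat.card_congr e, Nat.card_eq_fintype_card, hc]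

theorem rfa_four {f g : ℕ} (hf : 0 < f) (hg : 0 < g) : Fq p f ≤ Fq p g ↔ f ∣ g := by
  constructor
  · intro h
    obtain ⟨h1, h2⟩ := rfa_three (p := p) hf
    obtain ⟨h3, h4⟩ := rfa_three (p := p) hg
    let _ : Algebra (Fq p f) (Fq p g) := (Subfield.inclusion h).toAlgebra
    have hfin : Module.Finite (Fq p f) (Fq p g) := Module.Finite.of_finite
    have h5 := Module.natCard_eq_pow_finrank (K := Fq p f) (V := Fq p g)
    rw [h2, h4, ← pow_mul] at h5
    exact ⟨_, Nat.pow_right_injective hp.out.two_le h5⟩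
  · rintro ⟨k, rfl⟩ x hx
    rw [mem_Fq] at hx ⊢
    clear hg
    induction k with
    | zero => simp
    | succ k ih => rw [Nat.mul_succ, pow_add, pow_mul, ih, hx]

end

theorem st_RFA : ST_RFA := by
  intro p hp
  exact ⟨rfa_one, rfa_two, fun f hf => rfa_three hf, fun f g hf hg => rfa_four hf hg⟩

end Pool.Agent.Helper60.FF
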