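import Pool.Agent.Helper60.FF.StmtsC

set_option autoImplicit false

namespace Pool.Agent.Helper60.FF

open Polynomial

theorem st_SGF (hORD : ST_ORD) : ST_SGF := by
  intro p n hp K
  obtain ⟨-, -, -, hfin, -⟩ := hORD p K.A
  have key : ∀ m : ℕ, 0 < m →
      {v : K.A | ∃ i : ℕ, i < 4 * n ^ 2 + 2 * n ∧
        ordv K.A v (K.H m ((i : ℕ) : RatFunc K.A)) ≠ 0}.Finite := by
    intro m hm
    have h1 : (⋃ i ∈ Set.Iio (4 * n ^ 2 + 2 * n),
        {v : K.A | ordv K.A v (K.H m ((i : ℕ) : RatFunc K.A)) ≠ 0}).Finite := by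
      refine Set.Finite.biUnion (Set.finite_Iio _) ?_
      intro i _
      exact hfin _ (K.H0 m _ hm)
    refine h1.subset ?_
    rintro v ⟨i, hi, hv⟩
    exact Set.mem_biUnion (show i ∈ Set.Iio (4 * n ^ 2 + 2 * n) from hi) hv
  refine ⟨?_, key⟩
  have h2 := key (4 * n + 2) (by omega)
  refine (h2.union (Set.finite_singleton (0 : K.A))).subset ?_
  rintro v (hv | hv)
  · exact Or.inr hv
  · exact Or.inl hv

end Pool.Agent.Helper60.FF
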